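import Mathlib
import Pool.Agent.Y777.AM.St

/-!
# MP_03df5c_nt: polynomial relations of exponential height between real multiple zeta values

Let `w_1, ..., w_k` be arbitrary indices of depth at most `r` with first argument at least `n` and
all arguments at most `κ n`, and let `f_1, ..., f_l` be integer polynomials of degree at most `D`
with coefficients of absolute value at most `C ^ n`, where `n` is large in terms of
`k, r, κ, D, C`. If `∑ β_j f_j` vanishes (or is very small) at the real multiple zeta values of the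
`w_i`, where `β_1, ..., β_l` are fixed real algebraic numbers, independent over `ℚ`, then every
`f_j` vanishes in every commutative ring at every family with the stuffle product, for example at
the `p`-adic multiple zeta values, for all primes `p` at once.
-/

set_option autoImplicit false

namespace Pool.Agent.Results.MP_03df5c_nt.AllIndices

/-- `trunc [s_1, ..., s_r] m` is the sum of `∏ k_i ^ (-s_i)` over `m > k_1 > ... > k_r ≥ 1` -/
noncomputable def trunc : List ℕ → ℕ → ℝ
  | [], _ => 1
  | s :: l, m => ∑ j ∈ Finset.Ico 1 m, trunc l j / (j : ℝ) ^ s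

/-- the multiple zeta value `ζ(s_1, ..., s_r)`, `s_1` belongs to the largest variable -/
noncomputable def mzv : List ℕ → ℝ
  | [] => 1
  | s :: l => ∑' k : ℕ, trunc l (k + 1) / ((k + 1 : ℕ) : ℝ) ^ s

/-- admissible indices: `(s_1, ..., s_r)` with `r ≥ 1`, `s_1 ≥ 2` and all `s_i ≥ 1` -/
def AdmissibleIndex : List ℕ → Prop
  | [] => False
  | s :: l => 2 ≤ s ∧ ∀ t ∈ l, 1 ≤ t

/-- the list of the indices in the stuffle (series) product of two indices -/
def stuffles : List ℕ → List ℕ → List (List ℕ)
  | [], l => [l]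
  | i :: k, [] => [i :: k]
  | i :: k, j :: l => (stuffles k (j :: l)).map (i :: ·) ++ (stuffles (i :: k) l).map (j :: ·) ++
      (stuffles k l).map ((i + j) :: ·)
termination_by k l => k.length + l.length

/-- `Z` has the stuffle product: `Z(k) Z(l) = ∑ Z(m)` over the indices `m` of the stuffle product
of `k` and `l`, for all admissible indices `k` and `l` -/
def HasStuffleProduct {A : Type} [CommRing A] (Z : List ℕ → A) : Prop :=
  ∀ k l : List ℕ, AdmissibleIndex k → AdmissibleIndex l →
    Z k * Z l = ((stuffles k l).map Z).sum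

/-- nonempty indices of depth at most `r` whose first argument is at least `n` and whose arguments
are positive and at most `κ n` -/
def Large (r : ℕ) (κ : ℝ) (n : ℕ) (w : List ℕ) : Prop :=
  w ≠ [] ∧ w.length ≤ r ∧ (∀ m ∈ w, 1 ≤ m ∧ (m : ℝ) ≤ κ * n) ∧ ∀ k ∈ w.head?, n ≤ k

/-- Let `β_1, ..., β_l` be real algebraic numbers, linearly independent over `ℚ`. For all `k`, `r`,
`D` and all real `κ`, `C` there are `B > 1` and `n0` such that for all `n ≥ n0`, all indices
`w_1, ..., w_k` as in the definition of `Large` and all integer polynomials `f_1, ..., f_l` of degree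
at most `D` in `k` variables with coefficients of absolute value at most `C ^ n`: if
`|∑ β_j f_j(ζ(w_1), ..., ζ(w_k))| ≤ B ^ (-n)`, then `f_j(ζ(w_1), ..., ζ(w_k)) = 0` for all `j`, and
`f_j(Z(w_1), ..., Z(w_k)) = 0` for all `j`, all commutative rings `A` and all functions `Z` from the
indices to `A` that have the stuffle product. -/
theorem result {l : ℕ} (β : Fin l → ℝ) (hβ : ∀ j, IsAlgebraic ℚ (β j))
    (hli : LinearIndependent ℚ β) (k r D : ℕ) (κ C : ℝ) :
    ∃ B : ℝ, 1 < B ∧ ∃ n0 : ℕ, ∀ n : ℕ, n0 ≤ n → ∀ w : Fin k → List ℕ,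
      (∀ i, Large r κ n (w i)) → ∀ f : Fin l → MvPolynomial (Fin k) ℤ,
      (∀ j, (f j).totalDegree ≤ D) → (∀ j m, |(((f j).coeff m : ℤ) : ℝ)| ≤ C ^ n) →
      |∑ j, β j * MvPolynomial.aeval (fun i => mzv (w i)) (f j)| ≤ (B ^ n)⁻¹ →
      ∀ j, MvPolynomial.aeval (fun i => mzv (w i)) (f j) = 0 ∧
        ∀ (A : Type) [CommRing A] (Z : List ℕ → A), HasStuffleProduct Z →
          MvPolynomial.aeval (fun i => Z (w i)) (f j) = 0 := by
  have h1 : ∀ l m, trunc l m = Pool.Agent.Y760.ZG.hr l m := by
    intro l
    induction l with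
    | nil => intro m; rw [trunc, Pool.Agent.Y760.ZG.hr]
    | cons s l ih =>
      intro m
      rw [trunc, Pool.Agent.Y760.ZG.hr]
      exact Finset.sum_congr rfl fun j _ => by rw [ih]
  have h2 : mzv = Pool.Agent.Y760.ZG.mz := by
    funext l
    cases l with
    | nil => rw [mzv, Pool.Agent.Y760.ZG.mz]
    | cons s l =>
      rw [mzv, Pool.Agent.Y760.ZG.mz]
      exact tsum_congr fun k => by rw [h1]
  have h3 : ∀ u v, stuffles u v = Pool.Agent.Y760.ZF.sti u v := by
    intro u v
    induction u, v using Pool.Agent.Y760.ZF.sti.induct with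
    | case1 v => rw [stuffles, Pool.Agent.Y760.ZF.sti]
    | case2 x u => rw [stuffles, Pool.Agent.Y760.ZF.sti]
    | case3 x u y v ih1 ih2 ih3 => rw [stuffles, Pool.Agent.Y760.ZF.sti, ih1, ih2, ih3]
  obtain ⟨B, hB, n0, hmain⟩ := Pool.Agent.Y777.AM.St.main β hβ hli k r D κ C
  refine ⟨B, hB, n0, fun n hn w hw f hf hC hv j => ?_⟩
  rw [h2] at hv ⊢
  obtain ⟨h4, h5⟩ := hmain n hn w hw f (by
    intro j m hm i
    refine le_trans ?_ ((MvPolynomial.le_totalDegree hm).trans (hf j))
    rw [Finsupp.sum_fintype _ _ (fun _ => rfl)]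
    exact Finset.single_le_sum (f := fun i => m i) (fun _ _ => Nat.zero_le _)
      (Finset.mem_univ i)) hC hv j
  refine ⟨h4, fun A _ Z hZ => h5 A Z fun u v hu hv => ?_⟩
  have h6 : ∀ u, Pool.Agent.Y777.AM.St.Ad u → AdmissibleIndex u := by
    intro u hu
    cases u with
    | nil => exact hu
    | cons s l => exact hu
  rw [hZ u v (h6 u hu) (h6 v hv), h3]

end Pool.Agent.Results.MP_03df5c_nt.AllIndices
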